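import Pool.Agent.H992.PM.JDefs

/-!
# JM8 (helper668, for helper992): convergence of the joint polynomial means, positive weights
-/

set_option autoImplicit false
open MeasureTheory Filter Topology Complex ProbabilityTheory
open scoped ContDiff ENNReal

namespace Pool.Agent.H668.JM

open Pool.Agent.W745.RW (TF)
open Pool.Agent.N661.BR (MW IsRandomWave meas_eval lin)
open Pool.Agent.N661.BH (loc)
open Pool.Agent.N814.BHM (P mass Pz int_Pz)
open Pool.Agent.N814.BHASM (Hyp X probz probP mpos X_meas)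
open Pool.Agent.H992.LB (eγ eX fs val_fs SX_fs)
open Pool.Agent.H992.SF (eJ eXJ On)
open Pool.Agent.H992.PM

variable {Ω : Set ℂ} {lam : ℕ → ℝ} {u : ℕ → ℂ → ℝ}

theorem chi_bd {χ : ℂ → ℝ} (hχ : TF Ω χ) : ∃ C : ℝ, ∀ z, |χ z| ≤ C := by
  obtain ⟨C, hC⟩ := hχ.2.1.exists_bound_of_continuous hχ.1.continuous
  exact ⟨C, fun z => by simpa using hC z⟩

theorem chi_meas {χ : ℂ → ℝ} (hχ : TF Ω χ) : Measurable fun p : ℂ × (ℝ × Bool) => χ p.1 :=
  hχ.1.continuous.measurable.comp measurable_fst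

theorem chi_int (H : Hyp Ω lam u) {χ : ℂ → ℝ} (hχ : TF Ω χ) :
    Integrable (fun p : ℂ × (ℝ × Bool) => χ p.1) (P Ω) := by
  have := probP H
  obtain ⟨C, hC⟩ := chi_bd hχ
  exact Integrable.of_bound (chi_meas hχ).aestronglyMeasurable C
    (Eventually.of_forall fun p => by rw [Real.norm_eq_abs]; exact hC _)

/-- the measure with weight `χ` -/
noncomputable def Qc (Ω : Set ℂ) (χ : ℂ → ℝ) : Measure (ℂ × (ℝ × Bool)) :=
  (P Ω).withDensity fun p => ENNReal.ofReal (χ p.1)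

theorem int_Qc {E : Type} [NormedAddCommGroup E] [NormedSpace ℝ E] {χ : ℂ → ℝ} (hχ : TF Ω χ)
    (h0 : ∀ z, 0 ≤ χ z) (F : ℂ × (ℝ × Bool) → E) :
    ∫ p, F p ∂(Qc Ω χ) = ∫ p, χ p.1 • F p ∂(P Ω) := by
  unfold Qc
  rw [integral_withDensity_eq_integral_toReal_smul (chi_meas hχ).ennreal_ofReal
    (Eventually.of_forall fun _ => ENNReal.ofReal_lt_top)]
  refine integral_congr_ae (Eventually.of_forall fun p => ?_)
  show (ENNReal.ofReal (χ p.1)).toReal • F p = χ p.1 • F p
  rw [ENNReal.toReal_ofReal (h0 _)]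

theorem fin_Qc (H : Hyp Ω lam u) {χ : ℂ → ℝ} (hχ : TF Ω χ) : IsFiniteMeasure (Qc Ω χ) := by
  unfold Qc
  refine isFiniteMeasure_withDensity ?_
  have := (chi_int H hχ).2
  have h2 : ∫⁻ p, ENNReal.ofReal (χ p.1) ∂(P Ω) ≤ ∫⁻ p, ‖χ p.1‖ₑ ∂(P Ω) := by
    refine lintegral_mono fun p => ?_
    exact ENNReal.ofReal_le_ofReal_iff' |>.2 (Or.inl (le_abs_self _)) |>.trans
      (by rw [← Real.enorm_eq_ofReal_abs])
  exact (lt_of_le_of_lt h2 this).ne

theorem mass_Qc (H : Hyp Ω lam u) {χ : ℂ → ℝ} (hχ : TF Ω χ) (h0 : ∀ z, 0 ≤ χ z) :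
    ((Qc Ω χ) Set.univ).toReal = ∫ p, χ p.1 ∂(P Ω) := by
  have := fin_Qc H hχ
  have h := int_Qc (E := ℝ) hχ h0 (fun _ => (1 : ℝ))
  simp only [smul_eq_mul, mul_one] at h
  rw [← h, integral_const, smul_eq_mul, mul_one]
  rfl

theorem integrable_Qc {χ : ℂ → ℝ} (hχ : TF Ω χ) (h0 : ∀ z, 0 ≤ χ z)
    {F : ℂ × (ℝ × Bool) → ℝ} (hF : Integrable (fun p => χ p.1 * F p) (P Ω)) :
    Integrable F (Qc Ω χ) := by
  unfold Qc
  rw [integrable_withDensity_iff_integrable_smul' (chi_meas hχ).ennreal_ofReal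
    (Eventually.of_forall fun _ => ENNReal.ofReal_lt_top)]
  refine hF.congr (Eventually.of_forall fun p => ?_)
  show χ p.1 * F p = (ENNReal.ofReal (χ p.1)).toReal • F p
  rw [ENNReal.toReal_ofReal (h0 _), smul_eq_mul]

theorem mass_chi (H : Hyp Ω lam u) {χ : ℂ → ℝ} (hχ : TF Ω χ) :
    mass Ω * ∫ p, χ p.1 ∂(P Ω) = ∫ z in Ω, χ z / z.im ^ 2 := by
  have := probz H
  have h1 : ∫ p : ℂ × (ℝ × Bool), χ p.1 ∂(P Ω) = ∫ z, χ z ∂(Pz Ω) := by
    have h2 := chi_int H hχ
    unfold P at h2 ⊢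
    rw [integral_prod _ h2]
    refine integral_congr_ae (Eventually.of_forall fun z => ?_)
    simp
  rw [h1, int_Pz (mpos H), smul_eq_mul, ← mul_assoc, mul_inv_cancel₀ (mpos H).ne', one_mul]
  refine integral_congr_ae (Eventually.of_forall fun z => ?_)
  show 1 / z.im ^ 2 * χ z = χ z / z.im ^ 2
  ring

/-- sums over the index set `Fin (d * k)` as double sums -/
theorem sum_fp {d k : ℕ} (f : Fin (d * k) → ℝ) :
    ∑ m, f m = ∑ i : Fin d, ∑ j : Fin k, f (finProdFinEquiv (i, j)) := by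
  rw [← finProdFinEquiv.sum_comp, Fintype.sum_prod_type]

theorem exp_sum_I {d : ℕ} (f : Fin d → ℝ) :
    Complex.exp (I * ((∑ i, f i : ℝ) : ℂ)) = ∏ i, Complex.exp (I * ((f i : ℝ) : ℂ)) := by
  rw [Complex.ofReal_sum, Finset.mul_sum, Complex.exp_sum]

theorem jp (h1 : S_JB) (h2 : S_GM) (h3 : S_PC) : S_JP := by
  intro d Ω lam u hd H γ hγp hγ χ hχ h0 hW hM k w Q
  let e : Fin d × Fin k ≃ Fin (d * k) := finProdFinEquiv
  let i₀ : Fin d := ⟨0, hd⟩
  have hfin := fin_Qc (H i₀) hχ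
  have hmY : ∀ n, Measurable fun (p : ℂ × (ℝ × Bool)) (m : Fin (d * k)) =>
      Xr (lam (e.symm m).1 n) (u (e.symm m).1 n) (w (e.symm m).1 (e.symm m).2) p :=
    fun n => measurable_pi_lambda _ fun m =>
      Complex.measurable_re.comp (X_meas ((H (e.symm m).1).sm n) 0 (w (e.symm m).1 (e.symm m).2))
  have hmV : Measurable fun (F : Fin d → MW) (m : Fin (d * k)) =>
      F (e.symm m).1 (w (e.symm m).1 (e.symm m).2) :=
    measurable_pi_lambda _ fun m =>
      (meas_eval (w (e.symm m).1 (e.symm m).2)).comp (measurable_pi_apply (e.symm m).1)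
  have hlim := h3 (ℂ × (ℝ × Bool)) inferInstance (Qc Ω χ) hfin (Fin d → MW) inferInstance
    (Measure.pi fun _ => γ) inferInstance (d * k)
    (fun n p m => Xr (lam (e.symm m).1 n) (u (e.symm m).1 n) (w (e.symm m).1 (e.symm m).2) p)
    (fun F m => F (e.symm m).1 (w (e.symm m).1 (e.symm m).2)) hmY hmV ?_ ?_ ?_
    (MvPolynomial.rename e Q)
  · have e0 : ∀ g : Fin d × Fin k → ℝ, MvPolynomial.eval (fun m : Fin (d * k) => g (e.symm m))
        (MvPolynomial.rename e Q) = MvPolynomial.eval g Q := by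
      intro g
      rw [MvPolynomial.eval_rename]
      congr 2
      funext q
      simp
    have e1 : ∀ᶠ n in atTop, mass Ω * ∫ z, MvPolynomial.eval
        (fun m => Xr (lam (e.symm m).1 n) (u (e.symm m).1 n) (w (e.symm m).1 (e.symm m).2) z)
          (MvPolynomial.rename e Q) ∂(Qc Ω χ) =
        jpMean Ω χ (fun i => lam i n) (fun i => u i n) w Q := by
      filter_upwards [h1 d Ω lam u hd H χ hχ k w Q] with n hn
      rw [hn.2, int_Qc hχ h0]
      congr 1
      refine integral_congr_ae (Eventually.of_forall fun p => ?_)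
      show χ p.1 • MvPolynomial.eval
        (fun m => Xr (lam (e.symm m).1 n) (u (e.symm m).1 n) (w (e.symm m).1 (e.symm m).2) p)
          (MvPolynomial.rename e Q) = _
      rw [e0 (fun q => Xr (lam q.1 n) (u q.1 n) (w q.1 q.2) p), smul_eq_mul]
    have e2 := (hlim.const_mul (mass Ω)).congr' e1
    rw [mass_Qc (H i₀) hχ h0] at e2
    rw [← mass_chi (H i₀) hχ]
    have e3 : (∫ F : Fin d → MW, MvPolynomial.eval
        (fun m => F (e.symm m).1 (w (e.symm m).1 (e.symm m).2)) (MvPolynomial.rename e Q)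
          ∂(Measure.pi fun _ => γ)) =
        ∫ F : Fin d → MW, MvPolynomial.eval (fun q : Fin d × Fin k => F q.1 (w q.1 q.2)) Q
          ∂(Measure.pi fun _ => γ) := by
      refine integral_congr_ae (Eventually.of_forall fun F => ?_)
      exact e0 (fun q => F q.1 (w q.1 q.2))
    rw [e3] at e2
    have e4 : mass Ω * ((∫ F : Fin d → MW, MvPolynomial.eval
          (fun q : Fin d × Fin k => F q.1 (w q.1 q.2)) Q ∂(Measure.pi fun _ => γ)) *
        ∫ p, χ p.1 ∂(P Ω)) = (∫ F : Fin d → MW, MvPolynomial.eval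
          (fun q : Fin d × Fin k => F q.1 (w q.1 q.2)) Q ∂(Measure.pi fun _ => γ)) *
        (mass Ω * ∫ p, χ p.1 ∂(P Ω)) := by ring
    rw [e4] at e2
    exact e2
  · intro t
    have hWt := hW (fun i => fs (w i) (fun j => t (e (i, j))))
      (fun i hi => absurd (Finset.mem_univ i) hi)
    rw [mass_Qc (H i₀) hχ h0]
    have e1 : ∫ p, (χ p.1 : ℂ) ∂(P Ω) = ((∫ p, χ p.1 ∂(P Ω) : ℝ) : ℂ) := integral_ofReal
    rw [e1] at hWt
    have e2 : (∏ i, ∫ f, eγ (fs (w i) (fun j => t (e (i, j)))) f ∂γ) =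
        ∫ F : Fin d → MW, Complex.exp (I * ((∑ m, t m *
          F (e.symm m).1 (w (e.symm m).1 (e.symm m).2) : ℝ) : ℂ)) ∂(Measure.pi fun _ => γ) := by
      rw [← integral_fintype_prod_eq_prod
        (fun (i : Fin d) (f : MW) => eγ (fs (w i) (fun j => t (e (i, j)))) f)]
      refine integral_congr_ae (Eventually.of_forall fun F => ?_)
      show (∏ i, eγ (fs (w i) (fun j => t (e (i, j)))) (F i)) = Complex.exp (I * ((∑ m, t m *
          F (e.symm m).1 (w (e.symm m).1 (e.symm m).2) : ℝ) : ℂ))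
      rw [sum_fp, exp_sum_I]
      refine Finset.prod_congr rfl fun i _ => ?_
      show Complex.exp (I * ((Pool.Agent.H992.LB.val (fs (w i) (fun j => t (e (i, j)))) (F i) : ℝ)
        : ℂ)) = _
      rw [val_fs, lin]
      congr 3
      refine Finset.sum_congr rfl fun j _ => ?_
      show t (e (i, j)) * F i (w i j) = t (e (i, j)) *
        F (e.symm (e (i, j))).1 (w (e.symm (e (i, j))).1 (e.symm (e (i, j))).2)
      rw [Equiv.symm_apply_apply]
    rw [e2] at hWt
    refine hWt.congr fun n => ?_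
    rw [int_Qc (E := ℂ) hχ h0]
    refine integral_congr_ae (Eventually.of_forall fun p => ?_)
    show (χ p.1 : ℂ) * (∏ i, eX (lam i n) (u i n) (fs (w i) (fun j => t (e (i, j)))) p) =
      χ p.1 • Complex.exp (I * ((∑ m, t m *
        Xr (lam (e.symm m).1 n) (u (e.symm m).1 n) (w (e.symm m).1 (e.symm m).2) p : ℝ) : ℂ))
    rw [Complex.real_smul, sum_fp, exp_sum_I]
    congr 1
    refine Finset.prod_congr rfl fun i _ => ?_
    unfold eX
    have e3 : (Pool.Agent.H992.LB.SX (lam i n) (u i n) (fs (w i) (fun j => t (e (i, j)))) p).re =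
        ∑ j, t (e (i, j)) * Xr (lam i n) (u i n) (w i j) p := by
      rw [SX_fs, Complex.re_sum]
      refine Finset.sum_congr rfl fun j _ => ?_
      rw [Complex.re_ofReal_mul]
      rfl
    rw [e3]
    congr 3
    refine Finset.sum_congr rfl fun j _ => ?_
    show t (e (i, j)) * Xr (lam i n) (u i n) (w i j) p = t (e (i, j)) *
      Xr (lam (e.symm (e (i, j))).1 n) (u (e.symm (e (i, j))).1 n)
        (w (e.symm (e (i, j))).1 (e.symm (e (i, j))).2) p
    rw [Equiv.symm_apply_apply]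
  · intro m q
    obtain ⟨M, hMb⟩ := hM (e.symm m).1 (w (e.symm m).1 (e.symm m).2) q
    refine ⟨M, ?_⟩
    filter_upwards [hMb] with n hn
    refine ⟨integrable_Qc hχ h0 hn.1, ?_⟩
    rw [int_Qc hχ h0]
    exact hn.2
  · intro m q
    exact (measurePreserving_eval (fun _ : Fin d => γ) (e.symm m).1).integrable_comp_of_integrable
      ((h2 γ hγp hγ).1 (w (e.symm m).1 (e.symm m).2) q)

end Pool.Agent.H668.JM
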